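import Pool.Agent.Y782.WU.Stm

set_option autoImplicit false

open MeasureTheory ProbabilityTheory Filter Topology
open scoped ENNReal NNReal BigOperators unitInterval
open Pool.Agent.Y782.WU

namespace Pool.Agent.Y868.WU

variable {V : Type}

/-- adjacency in the limit forest -/
lemma tlim_adj (Kf : KT) (H : ℕ → SimpleGraph V) (o : V → I) (u : ℕ → V → I) (x y : V) :
    (Tlim Kf H o u).Adj x y ↔ ∃ N, ∀ n ≥ N, (Tn Kf H o u n).Adj x y := by
  unfold Tlim
  rw [SimpleGraph.fromRel_adj]
  constructor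
  · rintro ⟨_, h | h⟩
    · exact h
    · obtain ⟨N, hN⟩ := h
      exact ⟨N, fun n hn => (hN n hn).symm⟩
  · rintro ⟨N, hN⟩
    exact ⟨(hN N le_rfl).ne, Or.inl ⟨N, hN⟩⟩

/-- eventually the forests agree with the limit at an edge of `G` -/
lemma ev_edge (Kf : KT) (G : SimpleGraph V) (H : ℕ → SimpleGraph V) (o : V → I)
    (hG : GoodH G H) (u : ℕ → V → I)
    (hd : ∀ n, Tn Kf H o u (n + 1) ⊓ H n ≤ Tn Kf H o u n) (e : Sym2 V) (he : e ∈ G.edgeSet) :
    ∀ᶠ n in atTop, (e ∈ (Tn Kf H o u n).edgeSet ↔ e ∈ (Tlim Kf H o u).edgeSet) := by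
  induction e using Sym2.ind with
  | _ x y =>
    simp only [SimpleGraph.mem_edgeSet] at he ⊢
    obtain ⟨m, hm⟩ := (hG.2.2.2 x y).1 he
    by_cases hev : ∃ N, ∀ n ≥ N, (Tn Kf H o u n).Adj x y
    · obtain ⟨N, hN⟩ := hev
      filter_upwards [eventually_ge_atTop N] with n hn
      exact ⟨fun _ => (tlim_adj Kf H o u x y).2 ⟨N, hN⟩, fun _ => hN n hn⟩
    · have hev' := hev
      push Not at hev'
      obtain ⟨n0, hn0, hna⟩ := hev' m
      have key : ∀ n, n0 ≤ n → ¬ (Tn Kf H o u n).Adj x y := by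
        intro n hn
        induction n, hn using Nat.le_induction with
        | base => exact hna
        | succ n hn ih =>
          intro hadj
          apply ih
          apply hd n
          refine ⟨hadj, ?_⟩
          exact hG.2.1 (le_trans hn0 hn) hm
      filter_upwards [eventually_ge_atTop n0] with n hn
      constructor
      · intro h
        exact absurd h (key n hn)
      · intro h
        exact absurd ((tlim_adj Kf H o u x y).1 h) hev

/-- every vertex is eventually in the component of `x` -/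
lemma ev_cls (G : SimpleGraph V) (H : ℕ → SimpleGraph V) (hc : G.Connected) (hG : GoodH G H)
    (x y : V) : ∀ᶠ n in atTop, y ∈ cls (H n) x := by
  obtain ⟨p⟩ := hc.preconnected x y
  induction p with
  | nil =>
    exact Eventually.of_forall (fun n => SimpleGraph.Reachable.refl _)
  | @cons a b c hab p ih =>
    obtain ⟨m, hm⟩ := (hG.2.2.2 a b).1 hab
    filter_upwards [ih, eventually_ge_atTop m] with n hn hmn
    have h1 : (H n).Adj a b := hG.2.1 hmn hm
    exact h1.reachable.trans hn

/-- restriction to a class which contains the end points -/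
lemma rst_edge (t : SimpleGraph V) (C : Set V) (a b : V) (ha : a ∈ C) (hb : b ∈ C) :
    (s(a, b) ∈ (rst t C).edgeSet ↔ s(a, b) ∈ t.edgeSet) := by
  simp only [SimpleGraph.mem_edgeSet]
  unfold rst
  rw [SimpleGraph.fromRel_adj]
  constructor
  · rintro ⟨_, h | h⟩
    · exact h.1
    · exact h.1.symm
  · intro h
    exact ⟨h.ne, Or.inl ⟨h, ha, hb⟩⟩

/-- WU-LM: the law of the limit -/
theorem lm (h : S_LAW) : S_LM := by
  intro V _ Kf G H o hK hc hG hinj F S hF x
  obtain ⟨h1, h2⟩ := h V Kf H o hK hG.1 hG.2.1 hG.2.2.1 hinj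
  haveI : IsProbabilityMeasure (MU V) := by
    unfold MU
    infer_instance
  -- all end points of `F` are eventually in the class of `x`
  have hev : ∀ᶠ n in atTop, ∀ e ∈ F, ∀ v ∈ e, v ∈ cls (H n) x := by
    rw [Filter.eventually_all_finset]
    intro e _
    induction e using Sym2.ind with
    | _ a b =>
      filter_upwards [ev_cls G H hc hG x a, ev_cls G H hc hG x b] with n ha hb
      intro v hv
      rcases Sym2.mem_iff.1 hv with rfl | rfl
      · exact ha
      · exact hb
  obtain ⟨n0, hn0⟩ := eventually_atTop.1 hev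
  set E : ℕ → Set (ℕ → V → I) := fun n => {u | ∀ e ∈ F, (e ∈ (Tn Kf H o u n).edgeSet ↔ e ∈ S)}
    with hE
  set E' : Set (ℕ → V → I) := {u | ∀ e ∈ F, (e ∈ (Tlim Kf H o u).edgeSet ↔ e ∈ S)} with hE'
  let Q : SimpleGraph V → Prop := fun t => ∀ e ∈ F, (e ∈ t.edgeSet ↔ e ∈ S)
  have hEQ : ∀ n, n0 ≤ n → E n = {u | Q (rst (Tn Kf H o u n) (cls (H n) x))} := by
    intro n hn
    ext u
    simp only [hE, Set.mem_setOf_eq, Q]
    refine forall_congr' (fun e => forall_congr' (fun he => ?_))
    have hv := hn0 n hn e he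
    have h3 : (e ∈ (rst (Tn Kf H o u n) (cls (H n) x)).edgeSet ↔ e ∈ (Tn Kf H o u n).edgeSet) := by
      induction e using Sym2.ind with
      | _ a b =>
        exact rst_edge _ _ a b (hv a (Sym2.mem_mk_left a b)) (hv b (Sym2.mem_mk_right a b))
    rw [h3]
  have hmeas : ∀ n, n0 ≤ n → MeasurableSet (E n) := by
    intro n hn
    rw [hEQ n hn]
    exact (h2 n x Q).1
  have hval : ∀ n, n0 ≤ n → (MU V).real (E n) = fr (H n) x F S := by
    intro n hn
    rw [hEQ n hn]
    exact (h2 n x Q).2
  have hlim : ∀ u, ∀ᶠ n in atTop, (u ∈ E (n + n0) ↔ u ∈ E') := by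
    intro u
    have h4 : ∀ᶠ n in atTop, ∀ e ∈ F,
        (e ∈ (Tn Kf H o u n).edgeSet ↔ e ∈ (Tlim Kf H o u).edgeSet) := by
      rw [Filter.eventually_all_finset]
      intro e he
      exact ev_edge Kf G H o hG u (fun n => (h1 u n).2) e (hF he)
    have h5 := (tendsto_add_atTop_nat n0).eventually h4
    filter_upwards [h5] with n hn
    simp only [hE, hE', Set.mem_setOf_eq]
    refine forall_congr' (fun e => forall_congr' (fun he => ?_))
    rw [hn e he]
  have h6 : Tendsto (fun n => (MU V) (E (n + n0))) atTop (𝓝 ((MU V) E')) :=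
    tendsto_measure_of_tendsto_indicator_of_isFiniteMeasure atTop (MU V)
      (fun n => hmeas (n + n0) (Nat.le_add_left n0 n)) hlim
  have h7 : Tendsto (fun n => (MU V).real (E (n + n0))) atTop (𝓝 ((MU V).real E')) := by
    unfold Measure.real
    exact (ENNReal.tendsto_toReal (measure_ne_top _ _)).comp h6
  have h8 : Tendsto (fun n => fr (H (n + n0)) x F S) atTop (𝓝 ((MU V).real E')) := by
    refine h7.congr (fun n => ?_)
    exact hval (n + n0) (Nat.le_add_left n0 n)
  exact (tendsto_add_atTop_iff_nat n0).1 h8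

end Pool.Agent.Y868.WU
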